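import Pool.Agent.J6H88.NX.Good
import Pool.Agent.J6H99.NX.Dev

/-!
# NX-START: the quantiles are unbounded

Port of `Pool/Agent/J6H62/NC` (helper62) to weights with an exponential moment. In a good block the
weights in the narrow tube are between `b'` and `b''`; the walks which connect the two ends with the
detour are straight, of bounded length, and at a distance from the end levels of the block, so all
their edges are edges of the block, with weights at most `b''`.
-/

set_option autoImplicit false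

open MeasureTheory ProbabilityTheory Filter Topology
open scoped ENNReal

namespace Pool.Agent.J6H88.NX

open Pool.Agent.J6H99.NX

variable {e : ℕ}

lemma start_mem {x y : V e} (p : (lat e).Walk x y) (hne : x ≠ y) {R : Set (V e)}
    (h : Uses p (EIn R)) : x ∈ R := by
  cases p with
  | nil => exact absurd rfl hne
  | @cons _ z _ hz p =>
    exact h s(x, z) (by rw [SimpleGraph.Walk.edges_cons]; exact List.mem_cons_self ..) x
      (Sym2.mem_mk_left x z)

lemma end_mem {x y : V e} (p : (lat e).Walk x y) (hne : x ≠ y) {R : Set (V e)}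
    (h : Uses p (EIn R)) : y ∈ R := start_mem p.reverse hne.symm h.reverse

lemma cost_ge_of (q : Par) (ω : Om e) {x y : V e} (p : (lat e).Walk x y) {b : ℝ}
    (h : ∀ s ∈ p.edges, b ≤ q.w (ω s)) : b * p.length ≤ cost q ω p := by
  induction p with
  | nil => simp [cost_nil]
  | @cons x y z hxy p ih =>
    rw [cost_cons, SimpleGraph.Walk.length_cons]
    push_cast
    have h1 := h s(x, y) (by rw [SimpleGraph.Walk.edges_cons]; exact List.mem_cons_self ..)
    have h2 := ih fun s hs => h s (by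
      rw [SimpleGraph.Walk.edges_cons]; exact List.mem_cons_of_mem _ hs)
    linarith

lemma cost_le_of (q : Par) (ω : Om e) {x y : V e} (p : (lat e).Walk x y) {a : ℝ}
    (h : ∀ s ∈ p.edges, q.w (ω s) ≤ a) : cost q ω p ≤ a * p.length := by
  induction p with
  | nil => simp [cost_nil]
  | @cons x y z hxy p ih =>
    rw [cost_cons, SimpleGraph.Walk.length_cons]
    push_cast
    have h1 := h s(x, y) (by rw [SimpleGraph.Walk.edges_cons]; exact List.mem_cons_self ..)
    have h2 := ih fun s hs => h s (by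
      rw [SimpleGraph.Walk.edges_cons]; exact List.mem_cons_of_mem _ hs)
    linarith

section

variable {q : Par} {F : Measure ℝ} [IsProbabilityMeasure F] {ι : Type} [Fintype ι]

/-- points of the tube are not close to the shifted line -/
lemma sep (D : Cor e q F ι) (i : ι) {l W t s r : ℝ} (hs : 0 ≤ s) {x : V e}
    (hx : x ∈ Tube D l W) (hr : nr (vc x - (t • D.v + s • D.u i)) ≤ r) :
    s * nr (D.u i) ≤ (W / D.c0 + r) * (1 + nr (D.f i) * nr D.v) := by
  have h1 : nr (vc x - dt D.chi (vc x) • D.v) ≤ W / D.c0 := D.near_line hx.2.2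
  set α := dt D.chi (vc x) with hα
  set y : E e := (t - α) • D.v + s • D.u i with hy
  have h2 : nr y ≤ W / D.c0 + r := by
    have e1 : y = (t • D.v + s • D.u i - vc x) + (vc x - α • D.v) := by
      rw [hy, sub_smul]; abel
    rw [e1]
    refine (nr_add_le _ _).trans ?_
    rw [nr_sub_comm]
    linarith
  have h3 : |t - α| ≤ nr (D.f i) * nr y := by
    have e2 : dt (D.f i) y = t - α := by
      rw [hy, dt_add, dt_smul, dt_smul, D.fv, D.fu]; ring
    rw [← e2]
    exact abs_dt_le _ _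
  have h4 : s * nr (D.u i) ≤ nr y + |t - α| * nr D.v := by
    have e3 : s • D.u i = y - (t - α) • D.v := by rw [hy]; abel
    have e4 : s * nr (D.u i) = nr (s • D.u i) := by rw [nr_smul, abs_of_nonneg hs]
    rw [e4, e3]
    refine (nr_sub_le _ _).trans ?_
    rw [nr_smul]
  have h5 := nr_nonneg D.v
  have h6 := nr_nonneg (D.f i)
  have h7 : |t - α| * nr D.v ≤ nr (D.f i) * nr y * nr D.v := mul_le_mul_of_nonneg_right h3 h5
  have h8 : nr y * (1 + nr (D.f i) * nr D.v) ≤
      (W / D.c0 + r) * (1 + nr (D.f i) * nr D.v) :=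
    mul_le_mul_of_nonneg_right h2 (by positivity)
  linarith

lemma lev (D : Cor e q F ι) (i : ι) {t s r : ℝ} (hs : 0 ≤ s) {x : V e}
    (hr : nr (vc x - (t • D.v + s • D.u i)) ≤ r) :
    |lf D.chi x - t| ≤ nr D.chi * (s * nr (D.u i) + r) := by
  have h1 : lf D.chi x - t = dt D.chi (vc x - (t • D.v + s • D.u i)) + s * dt D.chi (D.u i) := by
    unfold lf
    rw [dt_sub, dt_add, dt_smul, dt_smul, D.chi_v]; ring
  have h2 := abs_dt_le D.chi (vc x - (t • D.v + s • D.u i))
  have h3 := abs_dt_le D.chi (D.u i)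
  have h4 := nr_nonneg D.chi
  rw [h1]
  refine (abs_add_le _ _).trans ?_
  rw [abs_mul, abs_of_nonneg hs]
  have h5 := mul_le_mul_of_nonneg_left hr h4
  have h6 := mul_le_mul_of_nonneg_left h3 hs
  linarith

/-- **The gain in a good block.** -/
theorem gain (D : Cor e q F ι) (i : ι) {W : ℝ} (hW : 0 ≤ W) {a' b' b'' : ℝ} (ha : 0 ≤ a')
    (hab : a' < b') (hbb : b' ≤ b'') : ∃ L R : ℕ, 1 ≤ L ∧ 2 * (nr D.chi * ((e : ℝ) + 2)) < L ∧
      ∀ (l : ℝ) (j : ℕ) (ω : Om e),
        (∀ t ∈ (box (rnd (((j : ℝ) * L) • D.v)) R).sym2, t ∈ Slab D.chi (j * L) ((j + 1) * L) →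
          (t ∈ EIn (Tube D l W) → b' ≤ q.w (ω t) ∧ q.w (ω t) ≤ b'') ∧
          (t ∉ EIn (Tube D l W) → q.w (ω t) ≤ a')) →
        ∀ (x y : V e) (p : (lat e).Walk x y),
          Uses p (EIn (Tube D l W) ∩ Slab D.chi (j * L) ((j + 1) * L)) →
          j * L ≤ lf D.chi x → lf D.chi x ≤ j * L + nr D.chi * ((e : ℝ) + 2) →
          (j + 1) * L - nr D.chi * ((e : ℝ) + 2) ≤ lf D.chi y → lf D.chi y ≤ (j + 1) * L →
          T q ω x y + 1 ≤ cost q ω p := by
  have hb' : 0 < b' := by linarith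
  have hb'' : 0 < b'' := by linarith
  have hu : 0 < nr (D.u i) := nr_pos (D.u_ne i)
  have hv : 0 < nr D.v := nr_pos D.v_ne
  have hf := nr_nonneg (D.f i)
  have hX := nr_nonneg D.chi
  have he : (0 : ℝ) ≤ e := Nat.cast_nonneg e
  obtain ⟨ρ, hρ⟩ : ∃ ρ : ℝ, ρ = W / D.c0 := ⟨_, rfl⟩
  have hρ0 : 0 ≤ ρ := by rw [hρ]; exact div_nonneg hW D.c0_pos.le
  obtain ⟨m, hm⟩ : ∃ m : ℝ, m = nr D.chi * ((e : ℝ) + 2) := ⟨_, rfl⟩
  have hm0 : 0 ≤ m := by rw [hm]; positivity
  have hmX : nr D.chi ≤ m := by rw [hm]; nlinarith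
  obtain ⟨r1, hr1⟩ : ∃ r1 : ℝ, r1 = nr D.v + 3 * ((e : ℝ) + 2) := ⟨_, rfl⟩
  have hr10 : 0 ≤ r1 := by rw [hr1]; positivity
  obtain ⟨s, hs⟩ : ∃ s : ℝ, s = ((ρ + r1) * (1 + nr (D.f i) * nr D.v) + 1) / nr (D.u i) :=
    ⟨_, rfl⟩
  have hs0 : 0 ≤ s := by rw [hs]; positivity
  have hsu : s * nr (D.u i) = (ρ + r1) * (1 + nr (D.f i) * nr D.v) + 1 := by
    rw [hs]; field_simp
  obtain ⟨U, hU⟩ : ∃ U : ℝ, U = s * nr (D.u i) := ⟨_, rfl⟩
  have hU0 : 0 ≤ U := by rw [hU]; positivity
  obtain ⟨C', hC'⟩ := exists_nat_ge (nr D.chi * (U + r1) + 1)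
  have hC'0 : (0 : ℝ) ≤ C' := Nat.cast_nonneg C'
  obtain ⟨C2, hC2⟩ : ∃ C2 : ℝ, C2 = ρ + (m + C') * nr D.v + U + ((e : ℝ) + 2) := ⟨_, rfl⟩
  have hC20 : 0 ≤ C2 := by rw [hC2]; positivity
  obtain ⟨K, hK⟩ := exists_nat_ge (nr D.chi * C2 + m + 1)
  have hKX : 0 ≤ nr D.chi * C2 := mul_nonneg hX hC20
  have hK0' : (0 : ℝ) ≤ K := Nat.cast_nonneg K
  obtain ⟨K0, hK0⟩ : ∃ K0 : ℝ, K0 = b' * (2 * m * nr D.v + 2 * ρ) + 2 * (b'' * C2) +
      a' * (2 * ((e : ℝ) + 2)) := ⟨_, rfl⟩
  have hK00 : 0 ≤ K0 := by rw [hK0]; positivity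
  have hd : 0 < (b' - a') * nr D.v := mul_pos (by linarith) hv
  obtain ⟨L', hL⟩ := exists_nat_ge (2 * C' + 2 * m + 1 + (K0 + 1) / ((b' - a') * nr D.v))
  have hq : 0 ≤ (K0 + 1) / ((b' - a') * nr D.v) := by positivity
  have hL1 : (1 : ℝ) ≤ L' := by linarith
  have hL2 : 2 * m < L' := by linarith
  have hL3 : 2 * (C' : ℝ) ≤ L' := by linarith
  have hL4 : K0 + 1 ≤ (b' - a') * nr D.v * L' := by
    have : (K0 + 1) / ((b' - a') * nr D.v) ≤ L' := by linarith
    rw [div_le_iff₀ hd] at this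
    linarith
  have hL3' : 2 * C' ≤ L' := by exact_mod_cast hL3
  obtain ⟨L, hLL⟩ : ∃ L : ℕ, L = L' + 2 * K := ⟨_, rfl⟩
  have hLc : (L : ℝ) = L' + 2 * K := by rw [hLL]; push_cast; ring
  obtain ⟨R, hR⟩ := exists_nat_ge (ρ + (L + m) * nr D.v + r1 + U + C2 + ((e : ℝ) + 2))
  refine ⟨L, R, by have : (1 : ℝ) ≤ L := by linarith
                   exact_mod_cast this, by rw [← hm]; linarith, ?_⟩
  rw [← hm]
  intro l j ω hG x₀ y₀ p₀ hp₀ hx₀1 hx₀2 hy₀1 hy₀2
  obtain ⟨A, hA⟩ : ∃ A : ℝ, A = j * L + K := ⟨_, rfl⟩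
  obtain ⟨B, hB⟩ : ∃ B : ℝ, B = (j + 1) * L - K := ⟨_, rfl⟩
  have hAB : B = A + L' := by rw [hB, hA, hLc]; ring
  obtain ⟨x, y, q1, p, q3, hcut, hx1, hx2, hy1, hy2, hpS⟩ :=
    block (A := A) (B := B) hmX (by linarith) p₀ (by linarith) (by linarith)
  have hpT : Uses p (EIn (Tube D l W)) := fun t ht => (hp₀ t (by
    rw [hcut, SimpleGraph.Walk.edges_append, List.mem_append, SimpleGraph.Walk.edges_append,
      List.mem_append]; exact Or.inr (Or.inl ht))).1
  suffices hmain : T q ω x y + 1 ≤ cost q ω p by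
    have t1 := T_tri q ω x₀ x y₀
    have t2 := T_tri q ω x y y₀
    have t3 := T_le q ω q1
    have t4 := T_le q ω q3
    have c1 : cost q ω p₀ = cost q ω q1 + (cost q ω p + cost q ω q3) := by
      rw [hcut, cost_append, cost_append]
    linarith
  have hL0 : (0 : ℝ) ≤ L := by linarith
  have hslab : ∀ t : Sym2 (V e), t ∈ Slab D.chi A B → t ∈ Slab D.chi (j * L) ((j + 1) * L) := by
    rintro t ⟨h1, z, hz, hl⟩
    exact ⟨fun z hz => by
      have := h1 z hz
      show (j : ℝ) * L ≤ lf D.chi z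
      have h3 : A ≤ lf D.chi z := this
      linarith, z, hz, by linarith⟩
  set Z : V e := rnd (((j : ℝ) * L) • D.v) with hZ
  -- membership in the box
  have hbox : ∀ z : V e, nr (vc z - ((j : ℝ) * L) • D.v) ≤ ρ + (L + m) * nr D.v + r1 + U + C2 →
      z ∈ box Z R := by
    intro z hz
    refine mem_box ?_
    have h1 := n1_le_of_nr (nr_rnd_sub (((j : ℝ) * L) • D.v)) hz
    rw [sub_self, nr_zero] at h1
    have h2 : (n1 (z - Z) : ℝ) ≤ R := by linarith
    exact_mod_cast h2
  have hne : x ≠ y := by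
    intro h
    rw [h] at hx2
    linarith
  have hxT := start_mem p hne hpT
  have hyT := end_mem p hne hpT
  have hxn : nr (vc x - lf D.chi x • D.v) ≤ ρ := by rw [hρ]; exact D.near_line hxT.2.2
  have hyn : nr (vc y - lf D.chi y • D.v) ≤ ρ := by rw [hρ]; exact D.near_line hyT.2.2
  -- distance to a multiple of `v`
  have hdist : ∀ z : V e, nr (vc z - lf D.chi z • D.v) ≤ ρ → ∀ t B : ℝ, |lf D.chi z - t| ≤ B →
      nr (vc z - t • D.v) ≤ ρ + B * nr D.v := by
    intro z hz t B hB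
    have h1 : vc z - t • D.v = (vc z - lf D.chi z • D.v) + (lf D.chi z - t) • D.v := by
      rw [sub_smul]; abel
    rw [h1]
    refine (nr_add_le _ _).trans ?_
    rw [nr_smul]
    have := mul_le_mul_of_nonneg_right hB hv.le
    linarith
  -- the cost of the walk in the tube
  have hc1 : b' * p.length ≤ cost q ω p := by
    refine cost_ge_of q ω p fun t ht => ?_
    have h1 := hpT t ht
    have h2 := hpS t ht
    refine ((hG t ?_ (hslab t h2)).1 h1).1
    rw [Finset.mem_sym2_iff]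
    intro z hz
    -- the level of `z`
    have hz1 : A ≤ lf D.chi z := h2.1 z hz
    have hz2 : lf D.chi z ≤ B + m := by
      obtain ⟨z', hz', hl⟩ := h2.2
      by_cases hzz : z' = z
      · rw [← hzz]; linarith
      · have hadj : (lat e).Adj z' z := by
          have : t = s(z', z) := ((Sym2.mem_and_mem_iff hzz).1 ⟨hz', hz⟩)
          rw [this] at ht
          exact p.adj_of_mem_edges ht
        have := abs_le.1 (lf_adj D.chi hadj)
        linarith
    refine hbox z ?_
    have hz3 : nr (vc z - lf D.chi z • D.v) ≤ ρ := by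
      rw [hρ]; exact D.near_line (h1 z hz).2.2
    have := hdist z hz3 (j * L) (L + m) (by rw [abs_le]; constructor <;> linarith)
    linarith
  have hc2 : ((L' : ℝ) - 2 * m) * nr D.v - 2 * ρ ≤ p.length := by
    have h1 : (n1 (y - x) : ℝ) ≤ p.length := by exact_mod_cast n1_le_length p
    refine le_trans ?_ h1
    rw [← nr_vc, vc_sub]
    have h2 : (lf D.chi y - lf D.chi x) • D.v =
        (vc y - vc x) + ((vc x - lf D.chi x • D.v) - (vc y - lf D.chi y • D.v)) := by
      rw [sub_smul]; abel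
    have h3 : nr ((lf D.chi y - lf D.chi x) • D.v) ≤ nr (vc y - vc x) + (ρ + ρ) := by
      rw [h2]
      refine (nr_add_le _ _).trans ?_
      have := nr_sub_le (vc x - lf D.chi x • D.v) (vc y - lf D.chi y • D.v)
      linarith
    rw [nr_smul] at h3
    have h4 : (L' : ℝ) - 2 * m ≤ |lf D.chi y - lf D.chi x| := by
      refine le_trans ?_ (le_abs_self _)
      linarith
    have h5 := mul_le_mul_of_nonneg_right h4 hv.le
    linarith
  -- the detour
  obtain ⟨π, hπ1, hπ2⟩ := line_walk D.v (D.u i) (A + C') s (L' - 2 * C')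
  have hcast : ((L' - 2 * C' : ℕ) : ℝ) = L' - 2 * C' := by
    rw [Nat.cast_sub hL3']; push_cast; ring
  have hπc : cost q ω π ≤ a' * π.length := by
    refine cost_le_of q ω π fun t ht => ?_
    have hsup : ∀ z ∈ t, z ∉ Tube D l W ∧ A + 1 ≤ lf D.chi z ∧
        lf D.chi z ≤ B - 1 ∧ z ∈ box Z R := by
      intro z hz
      obtain ⟨t', h1, h2, h3⟩ := hπ2 z (π.mem_support_of_mem_edges ht hz)
      rw [← hr1] at h3
      rw [hcast] at h2
      have h4 := abs_le.1 (lev D i hs0 h3)
      rw [← hU] at h4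
      refine ⟨fun hz' => ?_, by linarith, by linarith, ?_⟩
      · have := sep D i hs0 hz' h3
        rw [hsu, ← hρ] at this
        linarith
      · refine hbox z ?_
        have h5 : vc z - ((j : ℝ) * L) • D.v = (vc z - (t' • D.v + s • D.u i)) +
            ((t' - j * L) • D.v + s • D.u i) := by rw [sub_smul]; abel
        rw [h5]
        refine (nr_add_le _ _).trans ?_
        have h6 := nr_add_le ((t' - j * L) • D.v) (s • D.u i)
        rw [nr_smul, nr_smul, abs_of_nonneg hs0, abs_of_nonneg (by linarith), ← hU] at h6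
        have h7 : (t' - j * L) * nr D.v ≤ (L + m) * nr D.v :=
          mul_le_mul_of_nonneg_right (by linarith) hv.le
        linarith
    have hne' : t ∉ EIn (Tube D l W) := by
      induction t with
      | _ z1 z2 =>
        intro h
        exact (hsup z1 (Sym2.mem_mk_left z1 z2)).1 (h z1 (Sym2.mem_mk_left z1 z2))
    refine (hG t ?_ (hslab t ⟨?_, ?_⟩)).2 hne'
    · rw [Finset.mem_sym2_iff]
      exact fun z hz => (hsup z hz).2.2.2
    · intro z hz
      have := (hsup z hz).2.1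
      show A ≤ lf D.chi z
      linarith
    · induction t with
      | _ z1 z2 =>
        refine ⟨z1, Sym2.mem_mk_left z1 z2, ?_⟩
        have := (hsup z1 (Sym2.mem_mk_left z1 z2)).2.2.1
        linarith
  -- the ends
  have hends : ∀ x z : V e, nr (vc x - lf D.chi x • D.v) ≤ ρ → A ≤ lf D.chi x →
      lf D.chi x ≤ B → (n1 (z - x) : ℝ) ≤ C2 → T q ω x z ≤ b'' * C2 := by
    intro x z hxn hxA hxB hxz
    obtain ⟨r, hr⟩ := exists_walk_len x z
    have hrl : (r.length : ℝ) = (n1 (z - x) : ℝ) := by exact_mod_cast hr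
    refine (T_le q ω r).trans ?_
    refine (cost_le_of q ω r (a := b'') fun t ht => ?_).trans
      (mul_le_mul_of_nonneg_left (by linarith) hb''.le)
    have hsup : ∀ z' ∈ t, (j : ℝ) * L ≤ lf D.chi z' ∧ lf D.chi z' < (j + 1) * L ∧
        z' ∈ box Z R := by
      intro z' hz'
      have h1 : (n1 (z' - x) : ℝ) ≤ r.length := by
        exact_mod_cast n1_le_of_mem r (r.mem_support_of_mem_edges ht hz')
      have h2 : (n1 (z' - x) : ℝ) ≤ C2 := by linarith
      have h3 := abs_le.1 ((abs_lf_sub_le D.chi z' x).trans (mul_le_mul_of_nonneg_left h2 hX))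
      refine ⟨by linarith, by linarith, hbox z' ?_⟩
      have h4 := hdist x hxn (j * L) (L + m) (by rw [abs_le]; constructor <;> linarith)
      have h5 := nr_tri (vc z') (vc x) (((j : ℝ) * L) • D.v)
      rw [← vc_sub, nr_vc] at h5
      linarith
    have hS : t ∈ Slab D.chi (j * L) ((j + 1) * L) := by
      refine ⟨fun z' hz' => (hsup z' hz').1, ?_⟩
      induction t with
      | _ z1 z2 => exact ⟨z1, Sym2.mem_mk_left z1 z2, (hsup z1 (Sym2.mem_mk_left z1 z2)).2.1⟩
    have hB : t ∈ (box Z R).sym2 := by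
      rw [Finset.mem_sym2_iff]
      exact fun z' hz' => (hsup z' hz').2.2
    by_cases h : t ∈ EIn (Tube D l W)
    · exact ((hG t hB hS).1 h).2
    · exact ((hG t hB hS).2 h).trans (by linarith)
  have hT1 : T q ω x (rnd ((A + C') • D.v + s • D.u i)) ≤ b'' * C2 := by
    refine hends x _ hxn hx1 (by linarith) ?_
    have h1 := n1_le_of_nr (hdist x hxn (A + C') (m + C') (by
      rw [abs_le]; constructor <;> linarith))
      (nr_rnd_sub ((A + C') • D.v + s • D.u i))
    refine h1.trans ?_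
    rw [add_sub_cancel_left, nr_smul, abs_of_nonneg hs0, ← hU, hC2]
    linarith
  have hT2 : T q ω (rnd ((A + C' + ((L' - 2 * C' : ℕ) : ℝ)) • D.v + s • D.u i)) y ≤
      b'' * C2 := by
    rw [T_symm]
    refine hends y _ hyn (by linarith) hy2 ?_
    have h1 := n1_le_of_nr (hdist y hyn (A + C' + ((L' - 2 * C' : ℕ) : ℝ)) (m + C') (by
      rw [hcast, abs_le]; constructor <;> linarith))
      (nr_rnd_sub ((A + C' + ((L' - 2 * C' : ℕ) : ℝ)) • D.v + s • D.u i))
    refine h1.trans ?_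
    rw [add_sub_cancel_left, nr_smul, abs_of_nonneg hs0, ← hU, hC2]
    linarith
  have hT3 : cost q ω π ≤ a' * (L' * nr D.v + 2 * ((e : ℝ) + 2)) := by
    refine hπc.trans (mul_le_mul_of_nonneg_left (hπ1.trans ?_) ha)
    rw [hcast]
    have : ((L' : ℝ) - 2 * C') * nr D.v ≤ L' * nr D.v :=
      mul_le_mul_of_nonneg_right (by linarith) hv.le
    linarith
  have t1 := T_tri q ω x (rnd ((A + C') • D.v + s • D.u i)) y
  have t2 := T_tri q ω (rnd ((A + C') • D.v + s • D.u i))
    (rnd ((A + C' + ((L' - 2 * C' : ℕ) : ℝ)) • D.v + s • D.u i)) y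
  have t3 := T_le q ω π
  have h9 : b' * (((L' : ℝ) - 2 * m) * nr D.v - 2 * ρ) ≤ b' * p.length :=
    mul_le_mul_of_nonneg_left hc2 hb'.le
  have h10 : b' * (((L' : ℝ) - 2 * m) * nr D.v - 2 * ρ) =
      (b' - a') * nr D.v * L' + a' * (L' * nr D.v) - b' * (2 * m * nr D.v + 2 * ρ) := by ring
  linarith

omit [IsProbabilityMeasure F] in
/-- an interval of weights with positive probability -/
lemma exists_upper {b' : ℝ} (hFb : 0 < F {t | b' ≤ q.w t}) :
    ∃ b'' : ℝ, b' ≤ b'' ∧ 0 < F {t | b' ≤ q.w t ∧ q.w t ≤ b''} := by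
  by_contra hcon
  push Not at hcon
  have h0 : F (⋃ n : ℕ, {t | b' ≤ q.w t ∧ q.w t ≤ b' + n}) = 0 := by
    rw [measure_iUnion_null_iff]
    intro n
    exact le_antisymm (hcon (b' + n) (by linarith [Nat.cast_nonneg (α := ℝ) n])) bot_le
  have h1 : {t | b' ≤ q.w t} ⊆ ⋃ n : ℕ, {t | b' ≤ q.w t ∧ q.w t ≤ b' + n} := by
    intro t ht
    obtain ⟨n, hn⟩ := exists_nat_ge (q.w t - b')
    exact Set.mem_iUnion.2 ⟨n, ht, by linarith⟩
  exact absurd (measure_mono_null h1 h0) hFb.ne'

/-- the quantiles are unbounded -/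
theorem start1 [MB q F] (D : Cor e q F ι) (hV : VarB e q F) (hN : NonDeg q F) {ε : ℝ}
    (hε : 0 < ε) (hε1 : ε < 1) (Cs : ℕ) : ∃ l : ℕ, 1 ≤ l ∧ Cs ≤ kk D ε l := by
  classical
  by_contra hcon
  push Not at hcon
  obtain ⟨i, -⟩ := D.lat 0
  obtain ⟨a', b', hab, hFa, hFb⟩ := hN
  have ha : 0 ≤ a' := by
    by_contra h
    push Not at h
    have : {t | q.w t ≤ a'} = ∅ := by
      ext t
      simp only [Set.mem_ofPred_eq, Set.mem_empty_iff_false, iff_false, not_le]
      exact h.trans_le (q.w_nonneg t)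
    rw [this, measure_empty] at hFa
    exact lt_irrefl _ hFa
  obtain ⟨b'', hbb, hFb'⟩ := exists_upper (q := q) hFb
  obtain ⟨L, R, hL1, hLm, hgain⟩ := gain D i (W := (Cs : ℝ)) (Nat.cast_nonneg Cs) ha hab hbb
  obtain ⟨C, hC, hV⟩ := hV
  have hL1' : (1 : ℝ) ≤ L := by exact_mod_cast hL1
  have he : (0 : ℝ) ≤ e := Nat.cast_nonneg e
  have hv : 0 < nr D.v := nr_pos D.v_ne
  -- the probability of a good block
  set p : ℝ := min (F.real {t | q.w t ≤ a'}) (F.real {t | b' ≤ q.w t ∧ q.w t ≤ b''}) with hp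
  have hp0 : 0 < p := by
    rw [hp, lt_min_iff]
    exact ⟨ENNReal.toReal_pos hFa.ne' (measure_ne_top _ _),
      ENNReal.toReal_pos hFb'.ne' (measure_ne_top _ _)⟩
  have hp1 : p ≤ 1 := (min_le_left _ _).trans measureReal_le_one
  set M : ℕ := ((2 * R + 1) ^ (e + 2) + 1).choose 2 with hM
  set p0 : ℝ := p ^ M with hp00
  have hp0' : 0 < p0 := by positivity
  set B : ℝ := (4 + 16 * (C * (L * nr D.v + ((e : ℝ) + 2)))) / p0 ^ 2 with hB
  have hB0 : 0 ≤ B := by positivity
  set f0 : ℝ := nr (D.f i) * ((e : ℝ) + 2) with hf0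
  have hf00 : 0 ≤ f0 := mul_nonneg (nr_nonneg _) (by positivity)
  obtain ⟨N, hN⟩ := exists_nat_ge (1 + (B + 1) / ε + 4 * (Cs + f0) / p0)
  have hCs : (0 : ℝ) ≤ Cs := Nat.cast_nonneg Cs
  have q1 : 0 ≤ (B + 1) / ε := by positivity
  have q2 : 0 ≤ 4 * (Cs + f0) / p0 := by positivity
  have hN1 : (1 : ℝ) ≤ N := by linarith
  have hN1' : 1 ≤ N := by exact_mod_cast hN1
  have hNB : B + 1 ≤ ε * N := by
    have : (B + 1) / ε ≤ N := by linarith
    rw [div_le_iff₀ hε] at this
    linarith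
  have hNf : Cs + f0 ≤ p0 * N / 4 := by
    have : 4 * (Cs + f0) / p0 ≤ N := by linarith
    rw [div_le_iff₀ hp0'] at this
    linarith
  -- the crossing
  set l : ℕ := N * L with hl
  have hl1 : 1 ≤ l := Nat.mul_pos hN1' hL1
  have hlc : (l : ℝ) = N * L := by rw [hl]; push_cast; ring
  have hK : ε ≤ (PM e F).real (K D l Cs) := by
    have h1 : ENNReal.ofReal ε ≤ PM e F (K D l Cs) :=
      (kk_spec D hε1 l).trans (measure_mono (K_mono D (by exact_mod_cast (hcon l hl1).le)))
    rw [← ENNReal.toReal_ofReal hε.le]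
    exact ENNReal.toReal_mono (measure_ne_top _ _) h1
  -- the good events
  set S : ℕ → Finset (Sym2 (V e)) := fun j =>
    ((box (rnd (((j : ℝ) * L) • D.v)) R).sym2).filter
      (fun t => t ∈ Slab D.chi (j * L) ((j + 1) * L)) with hS
  set t : Sym2 (V e) → Set ℝ := fun s =>
    if s ∈ EIn (Tube D l Cs) then {r | b' ≤ q.w r ∧ q.w r ≤ b''} else {r | q.w r ≤ a'} with ht
  have htm : ∀ s, MeasurableSet (t s) := by
    intro s
    simp only [ht]
    split_ifs
    · exact (q.measurable_w measurableSet_Ici).inter (q.measurable_w measurableSet_Iic)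
    · exact q.measurable_w measurableSet_Iic
  have htp : ∀ s, p ≤ F.real (t s) := by
    intro s
    simp only [ht]
    split_ifs
    · exact min_le_right _ _
    · exact min_le_left _ _
  set G : ℕ → Set (Om e) := fun j => Set.pi (S j : Set (Sym2 (V e))) t with hG
  have hGm : ∀ j : ℕ, MeasurableSet[MS (Slab D.chi ((j : ℝ) * L) ((j + 1) * L))] (G j) := fun j =>
    meas_pi _ (S j) (fun s hs => (Finset.mem_filter.1 hs).2) t htm
  have hGp : ∀ j, p0 ≤ (PM e F).real (G j) := by
    intro j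
    refine le_trans ?_ (prob_pi F (S j) t htm hp0.le htp)
    rw [hp00]
    refine pow_le_pow_of_le_one hp0.le hp1 ?_
    refine (Finset.card_filter_le _ _).trans ?_
    rw [Finset.card_sym2, card_box]
  have hdis : ∀ i j : ℕ, i ≠ j → Disjoint (Slab D.chi ((i : ℝ) * L) ((i + 1) * L))
      (Slab D.chi ((j : ℝ) * L) ((j + 1) * L)) := by
    have h1 : ∀ i j : ℕ, i < j → Disjoint (Slab D.chi ((i : ℝ) * L) ((i + 1) * L))
        (Slab D.chi ((j : ℝ) * L) ((j + 1) * L)) := by
      intro i j hij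
      refine Slab_disjoint _ _ (mul_le_mul_of_nonneg_right ?_ (by linarith))
      exact_mod_cast hij
    intro i j hij
    rcases lt_or_gt_of_ne hij with h | h
    · exact h1 i j h
    · exact (h1 j i h).symm
  have hcount := count F (fun j : ℕ => Slab D.chi ((j : ℝ) * L) ((j + 1) * L)) hdis G hGm hp0'
    hGp hN1'
  -- Chebyshev
  set z : V e := rnd ((l : ℝ) • D.v) with hz
  have hcheb := cheb q F hV z (t := p0 * N / 4) (by positivity)
  have hn1 : (n1 z : ℝ) ≤ N * (L * nr D.v + ((e : ℝ) + 2)) := by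
    have h1 := n1_rnd_le ((l : ℝ) • D.v)
    rw [← hz, nr_smul, abs_of_nonneg (Nat.cast_nonneg l), hlc] at h1
    have h2 : ((e : ℝ) + 2) ≤ N * ((e : ℝ) + 2) := by nlinarith
    linarith
  have hgz : (N : ℝ) * L - f0 ≤ g q F z := by
    have h1 := D.lb i z
    have h2 := abs_le.1 (abs_lf_rnd_sub (D.f i) ((l : ℝ) • D.v))
    rw [dt_smul, D.fv, mul_one, ← hf0, ← hz, hlc] at h2
    linarith
  -- the union bound
  have hsub : K D l Cs ⊆
      {ω | ∑ j ∈ Finset.range N, (G j).indicator (fun _ => (1 : ℝ)) ω ≤ p0 * N / 2} ∪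
      {ω | p0 * N / 4 ≤ |T q ω 0 z - g q F z|} := by
    rintro ω ⟨p', hp', hc'⟩
    by_cases hgood : ∑ j ∈ Finset.range N, (G j).indicator (fun _ => (1 : ℝ)) ω ≤ p0 * N / 2
    · exact Or.inl hgood
    · right
      push Not at hgood
      have hm1 : nr D.chi ≤ nr D.chi * ((e : ℝ) + 2) := by
        have := nr_nonneg D.chi
        nlinarith
      have hzl : (N : ℝ) * L - nr D.chi * ((e : ℝ) + 2) ≤ lf D.chi z := by
        have h2 := abs_le.1 (abs_lf_rnd_sub D.chi ((l : ℝ) • D.v))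
        rw [dt_smul, D.chi_v, mul_one, ← hz, hlc] at h2
        linarith
      have hmul := multi q ω hm1 hLm (N := N) (z := z) hzl (EIn (Tube D l Cs))
        (fun j => ω ∈ G j) (fun j _ hj => hgain l j ω (by
          intro s hs1 hs2
          have h3 : ω s ∈ t s := hj s (by
            rw [Finset.mem_coe]; exact Finset.mem_filter.2 ⟨hs1, hs2⟩)
          constructor
          · intro h4
            simp only [ht, if_pos h4] at h3
            exact h3
          · intro h4
            simp only [ht, if_neg h4] at h3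
            exact h3)) N 0 (by omega) 0 p' hp' (by
          rw [lf_zero]
          have := nr_nonneg D.chi
          push_cast
          nlinarith)
      have hsum : ∑ i ∈ Finset.Ico 0 N, (if ω ∈ G i then (1 : ℝ) else 0) =
          ∑ j ∈ Finset.range N, (G j).indicator (fun _ => (1 : ℝ)) ω := by
        rw [Finset.range_eq_Ico]
        refine Finset.sum_congr rfl fun j _ => ?_
        rw [Set.indicator_apply]
      rw [hsum] at hmul
      have hT : T q ω 0 z ≤ N * L + Cs - p0 * N / 2 := by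
        have : (l : ℝ) + Cs = N * L + Cs := by rw [hlc]
        linarith
      show p0 * N / 4 ≤ |T q ω 0 z - g q F z|
      rw [abs_sub_comm]
      refine le_trans ?_ (le_abs_self _)
      linarith
  have hfin : ε ≤ 4 / (p0 ^ 2 * N) + C * n1 z / (p0 * N / 4) ^ 2 :=
    hK.trans ((measureReal_mono hsub).trans ((measureReal_union_le _ _).trans
      (add_le_add hcount hcheb)))
  have hfin2 : 4 / (p0 ^ 2 * N) + C * n1 z / (p0 * N / 4) ^ 2 ≤ B / N := by
    have h1 : C * n1 z / (p0 * N / 4) ^ 2 ≤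
        C * (N * (L * nr D.v + ((e : ℝ) + 2))) / (p0 * N / 4) ^ 2 := by
      gcongr
    have h2 : 4 / (p0 ^ 2 * N) + C * (N * (L * nr D.v + ((e : ℝ) + 2))) / (p0 * N / 4) ^ 2 =
        B / N := by
      rw [hB]
      have hN0 : (N : ℝ) ≠ 0 := by linarith
      field_simp
      ring
    linarith
  have hfin3 : ε ≤ B / N := hfin.trans hfin2
  rw [le_div_iff₀ (by linarith)] at hfin3
  linarith

end

/-- MODULE START -/
theorem start : StartT := by
  intro e q F _ _ ι _ D hV hN ε hε hε1 Cs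
  exact start1 D hV hN hε hε1 Cs

end Pool.Agent.J6H88.NX
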